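import Pool.Agent.H73.GWT.Stmts

set_option autoImplicit false

open Classical

namespace GWT

section code

variable {ι G V : Type*} [Fintype ι] [Group G] [MulAction G V] (C : Code ι G V)

theorem POK (h1 : OKTStmt C) : POKStmt C := by
  intro w g β z z' F
  induction F with
  | nil =>
    intro acc b R _ _ _
    simp only [pop, Ok, full, List.length_nil, and_self]
  | cons f F ih =>
    intro acc b R hOk hp hβ
    simp only [Ok] at hOk
    obtain ⟨hR, hs, he, hd, ht⟩ := hOk
    by_cases hc : β < pos C w f.1 (full F b) + 2 * C.Λ
    · have e1 : pop C w g β (f :: F) acc b =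
          ((if β ≤ pos C w f.1 (full F b) then Sum.inl (off C w g f.1 (full F b))
            else Sum.inr f.1) :: (pop C w g β F (acc ++ f.2 ++ [f.1]) b).1,
            (pop C w g β F (acc ++ f.2 ++ [f.1]) b).2) := by
        rw [pop, if_pos hc]
      obtain ⟨i1, i2, i3⟩ := ih (acc ++ f.2 ++ [f.1]) b _ ht hp hβ
      rw [e1]
      refine ⟨i1, ?_, ?_⟩
      · dsimp only
        rw [i2]
        simp only [full, List.append_assoc, List.cons_append, List.nil_append]
      · dsimp only
        rw [List.length_cons, List.length_cons]
        omega
    · have e1 : pop C w g β (f :: F) acc b = ([], (f.1, acc ++ f.2) :: F, b) := by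
        rw [pop, if_neg hc]
      rw [e1]
      refine ⟨?_, ?_, ?_⟩
      · dsimp only
        simp only [Ok]
        refine ⟨by omega, ?_, ?_, hd, ?_⟩
        · refine hp _ hs ?_
          show pos C w f.1 (full F b) ≤ β
          omega
        · refine hp _ he ?_
          omega
        · refine h1 w z z' F b _ _ ht ?_
          intro p hpz hpd
          exact ⟨hp p hpz (by omega), hpd⟩
      · dsimp only
        simp only [full, List.append_assoc]
      · dsimp only
        simp only [List.length_cons, List.length_nil, add_zero]

end code

end GWT
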